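import Pool.Agent.Helper53.PT.GoalsC
import Pool.Agent.Helper61.PT.RL
import Pool.Agent.Helper90.PT.LINE

/-!
# MP_705522_gt, packet PT-LAM: `lamU` and `ell`
-/

namespace Pool.Agent.Helper81.PT

open MeasureTheory Set Filter Topology
open Pool.Agent.Helper53.PT

theorem shl_eq (a b : ℕ) : Nat.shiftLeft a b = a * 2 ^ b := Nat.shiftLeft_eq a b

theorem shr_eq (a b : ℕ) : Nat.shiftRight a b = a / 2 ^ b := Nat.shiftRight_eq_div_pow a b

theorem mn_eq (a b : ℕ) : N.mn a b = min a b := by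
  unfold N.mn
  cases h : Nat.ble a b with
  | true => rw [min_eq_left (Nat.le_of_ble_eq_true h)]; rfl
  | false =>
    have : ¬ a ≤ b := fun h' => by rw [Nat.ble_eq_true_of_le h'] at h; cases h
    rw [min_eq_right (by omega)]; rfl

theorem mx_eq (a b : ℕ) : N.mx a b = max a b := by
  unfold N.mx
  cases h : Nat.ble a b with
  | true => rw [max_eq_right (Nat.le_of_ble_eq_true h)]; rfl
  | false =>
    have : ¬ a ≤ b := fun h' => by rw [Nat.ble_eq_true_of_le h'] at h; cases h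
    rw [max_eq_left (by omega)]; rfl

theorem pp_eq (v : ℕ) : N.pp v = v - 1099511627776 := rfl

theorem vR_nonneg (v : ℕ) : 0 ≤ vR v := by unfold vR; positivity

theorem aR_nonneg (v : ℕ) : 0 ≤ aR v := by unfold aR; positivity

theorem vR_pp {v : ℕ} (h : 2 ^ 40 ≤ v) : vR (N.pp v) = vR v - 1 := by
  have h' : 1099511627776 ≤ v := by norm_num at h; exact h
  rw [pp_eq]
  unfold vR
  rw [Nat.cast_sub h', sub_div]
  norm_num

theorem vR_mono {a b : ℕ} (h : a ≤ b) : vR a ≤ vR b := by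
  unfold vR
  have : (a : ℝ) ≤ b := Nat.cast_le.2 h
  gcongr

theorem aR_mono {a b : ℕ} (h : a ≤ b) : aR a ≤ aR b := by
  unfold aR
  have : (a : ℝ) ≤ b := Nat.cast_le.2 h
  gcongr

theorem aR_strict {a b : ℕ} (h : a < b) : aR a < aR b := by
  unfold aR
  have : (a : ℝ) < b := Nat.cast_lt.2 h
  gcongr

theorem beq_succ (k : ℕ) : Nat.beq (k + 1) 0 = false := rfl

section

variable {A : ℕ} {B : N.Base} {I : N.Ix} {θ z : ℝ}

theorem kz_lt (H : TH A B I θ z) : I.kz < 1152 := by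
  have := H.ix.z7
  omega

theorem xg_mono (hG : GGRID) {j k : ℕ} (h : j ≤ k) (hk : k ≤ 1152) : N.xgN j ≤ N.xgN k := by
  rcases Nat.eq_or_lt_of_le h with rfl | h
  · exact le_rfl
  · exact (hG.2.2.2.1 j k h hk).le

theorem xR_lt_z (hG : GGRID) (H : TH A B I θ z) {k : ℕ} (hk : k ≤ I.kz) : xR k < z :=
  lt_of_le_of_lt (aR_mono (xg_mono hG hk (kz_lt H).le)) H.zl

theorem f0_pos (hG : GGRID) (H : TH A B I θ z) {k : ℕ} (hk : k ≤ I.kz) : 0 < f0 θ (xR k) :=
  (Pool.Agent.Helper61.PT.gRL θ z _ _ _ _ H.fa).2.1 _ (aR_nonneg _) (xR_lt_z hG H hk)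

theorem PL_ge (H : TH A B I θ z) {k : ℕ} (hk : k ≤ I.kz) : 2 ^ 40 + 2 ^ 20 ≤ N.fld (N.tPL B) k :=
  H.ix.pl k hk

theorem PU_ge (H : TH A B I θ z) {k : ℕ} (hk : k ≤ I.kz) : 2 ^ 40 + 2 ^ 20 ≤ N.fld (N.tPU B) k :=
  (PL_ge H hk).trans (H.tb.lu k (hk.trans (kz_lt H).le))

theorem cond_beq (k a : ℕ) : cond (Nat.beq k 0) 0 a = if k = 0 then 0 else a := by
  cases k with
  | zero => rfl
  | succ k => rw [beq_succ, cond_false, if_neg (Nat.succ_ne_zero k)]

/-- The field `k` of `LU`. -/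
theorem LU_fld (hL : GLN) (hF : GFLD) (H : TH A B I θ z) {k : ℕ} (hk : k ≤ I.kz) :
    N.fld (N.tLU B I.kz) k = if k = 0 then 0 else N.lnU (N.pp (N.fld (N.tPL B) k)) := by
  have h1 := hF.1 (fun k => cond (Nat.beq k 0) 0 (N.lnU (N.pp (N.fld (N.tPL B) k)))) (Nat.succ I.kz)
    (by
      intro j hj
      rw [cond_beq]
      by_cases h0 : j = 0
      · rw [if_pos h0]
        positivity
      · rw [if_neg h0]
        refine hL.2.2.1 _ ?_
        have := PL_ge H (Nat.lt_succ_iff.1 hj)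
        rw [pp_eq]
        norm_num at this ⊢
        omega) k (Nat.lt_succ_iff.2 hk)
  unfold N.tLU
  rw [h1, cond_beq]

/-- The field `k` of `LL`. -/
theorem LL_fld (hL : GLN) (hF : GFLD) (H : TH A B I θ z) {k : ℕ} (hk : k ≤ I.kz) :
    N.fld (N.tLL B I.kz) k = if k = 0 then 0 else N.lnL (N.pp (N.fld (N.tPU B) k)) := by
  have h1 := hF.1 (fun k => cond (Nat.beq k 0) 0 (N.lnL (N.pp (N.fld (N.tPU B) k)))) (Nat.succ I.kz)
    (by
      intro j hj
      rw [cond_beq]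
      by_cases h0 : j = 0
      · rw [if_pos h0]
        positivity
      · rw [if_neg h0]
        have h2 : N.lnU (N.pp (N.fld (N.tPU B) j)) < 2 ^ 44 := by
          refine hL.2.2.1 _ ?_
          have := PU_ge H (Nat.lt_succ_iff.1 hj)
          rw [pp_eq]
          norm_num at this ⊢
          omega
        have h3 : ∀ v, N.lnU v = 80 + N.lnL v := fun v => rfl
        rw [h3] at h2
        omega) k (Nat.lt_succ_iff.2 hk)
  unfold N.tLL
  rw [h1, cond_beq]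

theorem xR_zero (hG : GGRID) : xR 0 = 0 := by
  unfold xR aR
  rw [hG.1]
  norm_num

theorem th_pos (H : TH A B I θ z) : 0 < θ := by linarith [H.bf.th0]

/-- `-log f0(xR k) ≤ LU k`. -/
theorem LU_ge (hL : GLN) (hF : GFLD) (hG : GGRID) (H : TH A B I θ z) {k : ℕ} (hk : k ≤ I.kz) :
    -Real.log (f0 θ (xR k)) ≤ vR (N.fld (N.tLU B I.kz) k) := by
  rw [LU_fld hL hF H hk]
  by_cases h0 : k = 0
  · subst h0
    rw [if_pos rfl, xR_zero hG, f0_zero (th_pos H) H.bf.th1]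
    unfold vR
    norm_num
  · rw [if_neg h0]
    have h1 := PL_ge H hk
    refine hL.2.1 _ _ ?_ ?_
    · rw [pp_eq]
      norm_num at h1
      omega
    · rw [vR_pp (by omega)]
      exact H.tb.pl k (hk.trans (kz_lt H).le)

theorem f0_le_one (hG : GGRID) (H : TH A B I θ z) {k : ℕ} (hk : k ≤ I.kz) : f0 θ (xR k) ≤ 1 := by
  have h := (Pool.Agent.Helper61.PT.gRL θ z _ _ _ _ H.fa).2.2.2.2.2.2.2.2.2.1 (xR k) (aR_nonneg _)
    (xR_lt_z hG H hk)
  refine h.trans ?_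
  rw [← Real.exp_zero]
  refine Real.exp_le_exp.2 ?_
  have : 0 ≤ xR k := aR_nonneg _
  linarith

/-- `LL k ≤ -log f0(xR k)`. -/
theorem LL_le (hL : GLN) (hF : GFLD) (hG : GGRID) (H : TH A B I θ z) {k : ℕ} (hk : k ≤ I.kz) :
    vR (N.fld (N.tLL B I.kz) k) ≤ -Real.log (f0 θ (xR k)) := by
  rw [LL_fld hL hF H hk]
  by_cases h0 : k = 0
  · subst h0
    rw [if_pos rfl, xR_zero hG, f0_zero (th_pos H) H.bf.th1]
    unfold vR
    norm_num
  · rw [if_neg h0]
    have h1 := PU_ge H hk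
    refine hL.1 _ _ (f0_pos hG H hk) (f0_le_one hG H hk) ?_
    rw [vR_pp (by omega)]
    exact H.tb.pu k (hk.trans (kz_lt H).le)

theorem lamPart (hL : GLN) (hF : GFLD) (hG : GGRID) (H : TH A B I θ z) (x : ℕ)
    (hx : x ≤ N.xgN I.kz) : lam θ (aR x) ≤ vR (N.lamU (N.mkTab B I) x) := by
  have hkz := kz_lt H
  have hxg : N.xgN I.kz < 2 ^ 32 := by
    rw [← hG.2.1]
    exact hG.2.2.2.1 _ _ hkz le_rfl
  obtain ⟨k, d, hk, hd, hxe, hidx, hcell⟩ := hG.2.2.2.2.1 x (lt_of_le_of_lt hx hxg)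
  -- `k ≤ kz`
  have hkk : k ≤ I.kz := by
    by_contra hcon
    have : N.xgN I.kz < N.xgN k := hG.2.2.2.1 _ _ (by omega) hk.le
    omega
  -- `d = 0` if `k = kz`
  have hd0 : k = I.kz → d = 0 := by
    intro h
    subst h
    omega
  set U0 := N.fld (N.tLU B I.kz) k with hU0
  set U1 := N.fld (N.tLU B I.kz) (k + 1) with hU1
  set s := N.shf k with hs
  have hlam : N.lamU (N.mkTab B I) x = (U0 * (2 ^ s - d) + U1 * d) / 2 ^ s + 1 - x * 2 ^ 13 := by
    unfold N.lamU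
    rw [hcell]
    show (Nat.shiftRight (U0 * (Nat.shiftLeft 1 s - d) + U1 * d) s + 1) - Nat.shiftLeft x 13 = _
    rw [shr_eq, shl_eq, shl_eq, one_mul]
  have hxs : aR x = xR k + (d : ℝ) / 2 ^ 26 := by
    unfold xR aR
    rw [hxe]
    push_cast
    ring
  -- the main inequality
  have hmain : -Real.log (f0 θ (aR x)) ≤ ((U0 * (2 ^ s - d) + U1 * d : ℕ) : ℝ) / 2 ^ s / 2 ^ 40 := by
    have h2s : (0 : ℝ) < 2 ^ s := by positivity
    have hcast : ((U0 * (2 ^ s - d) + U1 * d : ℕ) : ℝ) = U0 * (2 ^ s - d) + U1 * d := by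
      rw [Nat.cast_add, Nat.cast_mul, Nat.cast_mul, Nat.cast_sub hd.le]
      push_cast
      ring
    rcases Nat.eq_or_lt_of_le hkk with h | h
    · have hd' := hd0 h
      have hU : -Real.log (f0 θ (xR k)) ≤ vR U0 := LU_ge hL hF hG H hkk
      rw [hcast, hxs, hd']
      unfold vR at hU
      simp only [Nat.cast_zero, zero_div, add_zero, sub_zero, mul_zero]
      rw [mul_div_assoc, div_self h2s.ne', mul_one]
      exact hU
    · have hU : -Real.log (f0 θ (xR k)) ≤ vR U0 := LU_ge hL hF hG H hkk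
      have hU' : -Real.log (f0 θ (xR (k + 1))) ≤ vR U1 := LU_ge hL hF hG H h
      have hconv := (Pool.Agent.Helper61.PT.gRL θ z _ _ _ _ H.fa).2.2.2.2.2.2.2.1
      have hx1 : xR (k + 1) = xR k + 2 ^ s / 2 ^ 26 := by
        unfold xR aR
        rw [(hG.2.2.1 k hk).1]
        push_cast
        ring
      have hl0 : (0 : ℝ) ≤ (d : ℝ) / 2 ^ s := by positivity
      have hdR : (d : ℝ) < 2 ^ s := by exact_mod_cast hd
      have hl1 : (d : ℝ) / 2 ^ s ≤ 1 := (div_le_one h2s).2 hdR.le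
      have hc := hconv.2 (x := xR k) ⟨aR_nonneg _, xR_lt_z hG H hkk⟩ (y := xR (k + 1))
        ⟨aR_nonneg _, xR_lt_z hG H h⟩ (sub_nonneg.2 hl1) hl0 (by ring)
      have hpt : (1 - (d : ℝ) / 2 ^ s) • xR k + ((d : ℝ) / 2 ^ s) • xR (k + 1) = aR x := by
        rw [hxs, hx1, smul_eq_mul, smul_eq_mul]
        field_simp
        ring
      rw [hpt, smul_eq_mul, smul_eq_mul] at hc
      refine hc.trans ?_
      have e1 : (1 - (d : ℝ) / 2 ^ s) * -Real.log (f0 θ (xR k)) ≤ (1 - (d : ℝ) / 2 ^ s) * vR U0 :=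
        mul_le_mul_of_nonneg_left hU (sub_nonneg.2 hl1)
      have e2 : ((d : ℝ) / 2 ^ s) * -Real.log (f0 θ (xR (k + 1))) ≤ ((d : ℝ) / 2 ^ s) * vR U1 :=
        mul_le_mul_of_nonneg_left hU' hl0
      refine (add_le_add e1 e2).trans (le_of_eq ?_)
      rw [hcast]
      unfold vR
      field_simp
  rw [hlam]
  unfold lam
  set Nn := U0 * (2 ^ s - d) + U1 * d with hNn
  have hfl : ((Nn : ℕ) : ℝ) / 2 ^ s ≤ ((Nn / 2 ^ s + 1 : ℕ) : ℝ) := by
    have h2s : (0 : ℝ) < 2 ^ s := by positivity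
    rw [div_le_iff₀ h2s]
    have : Nn < (Nn / 2 ^ s + 1) * 2 ^ s := by
      have := Nat.lt_div_mul_add (a := Nn) (b := 2 ^ s) (by positivity)
      nlinarith
    exact_mod_cast this.le
  have hsub : ((Nn / 2 ^ s + 1 : ℕ) : ℝ) - ((x * 2 ^ 13 : ℕ) : ℝ) ≤
      ((Nn / 2 ^ s + 1 - x * 2 ^ 13 : ℕ) : ℝ) := by
    rcases le_total (x * 2 ^ 13) (Nn / 2 ^ s + 1) with h | h
    · rw [Nat.cast_sub h]
    · rw [Nat.sub_eq_zero_of_le h, Nat.cast_zero]
      have : ((Nn / 2 ^ s + 1 : ℕ) : ℝ) ≤ ((x * 2 ^ 13 : ℕ) : ℝ) := Nat.cast_le.2 h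
      linarith
  have hx2 : aR x / 2 = ((x * 2 ^ 13 : ℕ) : ℝ) / 2 ^ 40 := by
    unfold aR
    push_cast
    ring
  rw [hx2]
  unfold vR
  calc -Real.log (f0 θ (aR x)) - ((x * 2 ^ 13 : ℕ) : ℝ) / 2 ^ 40
      ≤ (Nn : ℝ) / 2 ^ s / 2 ^ 40 - ((x * 2 ^ 13 : ℕ) : ℝ) / 2 ^ 40 := by linarith
    _ ≤ ((Nn / 2 ^ s + 1 : ℕ) : ℝ) / 2 ^ 40 - ((x * 2 ^ 13 : ℕ) : ℝ) / 2 ^ 40 := by gcongr
    _ = (((Nn / 2 ^ s + 1 : ℕ) : ℝ) - ((x * 2 ^ 13 : ℕ) : ℝ)) / 2 ^ 40 := by ring
    _ ≤ _ := by gcongr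

/-! ### The minorant -/

/-- slope -/
noncomputable def sR (I : N.Ix) (k : ℕ) : ℝ := (N.slp I k : ℝ) / 2 ^ 30

theorem F_step (hG : GGRID) (H : TH A B I θ z) {k : ℕ} (hk : k < I.kz) :
    vR (N.fld (N.tF I) (k + 1)) = vR (N.fld (N.tF I) k) + sR I k * (xR (k + 1) - xR k) := by
  have hkz := kz_lt H
  obtain ⟨h1, h2, -⟩ := hG.2.2.1 k (by omega)
  unfold sR vR xR aR
  rw [H.ix.FS k hk, h1]
  obtain ⟨e, he⟩ := Nat.exists_eq_add_of_le h2
  rw [he, show 17 + e - 16 = e + 1 by omega]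
  push_cast
  rw [pow_add, pow_add]
  ring

theorem slp_mono (H : TH A B I θ z) {j k : ℕ} (hjk : j ≤ k) (hk : k < I.kz) :
    N.slp I j ≤ N.slp I k := by
  induction k, hjk using Nat.le_induction with
  | base => exact le_rfl
  | succ k hjk ih => exact (ih (by omega)).trans (H.ix.SM k hk)

theorem sR_mono (H : TH A B I θ z) {j k : ℕ} (hjk : j ≤ k) (hk : k < I.kz) : sR I j ≤ sR I k := by
  unfold sR
  have : (N.slp I j : ℝ) ≤ N.slp I k := Nat.cast_le.2 (slp_mono H hjk hk)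
  gcongr

theorem xR_step (hG : GGRID) (H : TH A B I θ z) {k : ℕ} (hk : k < I.kz) : xR k < xR (k + 1) := by
  have hkz := kz_lt H
  exact aR_strict (hG.2.2.2.1 _ _ (Nat.lt_succ_self _) (by omega))

/-- The line through the segment `k0` is below `F` at the grid points. -/
theorem line_le (hG : GGRID) (H : TH A B I θ z) {k0 : ℕ} (hk0 : k0 < I.kz) {j : ℕ} (hj : j ≤ I.kz) :
    vR (N.fld (N.tF I) k0) + sR I k0 * (xR j - xR k0) ≤ vR (N.fld (N.tF I) j) := by
  rcases le_total k0 j with h | h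
  · induction j, h using Nat.le_induction with
    | base => simp
    | succ j hkj ih =>
      have ih' := ih (by omega)
      rw [F_step hG H (by omega : j < I.kz)]
      have h1 : sR I k0 ≤ sR I j := sR_mono H hkj (by omega)
      have h2 : 0 ≤ xR (j + 1) - xR j := by linarith [xR_step hG H (by omega : j < I.kz)]
      have h3 := mul_le_mul_of_nonneg_right h1 h2
      linarith
  · -- downwards
    have key : ∀ e j : ℕ, j + e = k0 →
        vR (N.fld (N.tF I) k0) + sR I k0 * (xR j - xR k0) ≤ vR (N.fld (N.tF I) j) := by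
      intro e
      induction e with
      | zero =>
        intro j hj
        rw [add_zero] at hj
        subst hj
        simp
      | succ e ih =>
        intro j hj
        have ih' := ih (j + 1) (by omega)
        have hlt : j < I.kz := by omega
        rw [F_step hG H hlt] at ih'
        have h1 : sR I j ≤ sR I k0 := sR_mono H (by omega) hk0
        have h2 : 0 ≤ xR (j + 1) - xR j := by linarith [xR_step hG H hlt]
        have h3 := mul_le_mul_of_nonneg_right h1 h2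
        linarith
    exact key (k0 - j) j (by omega)

theorem div_aux (a b : ℝ) (hb : b ≠ 0) :
    a * ((2 ^ 40 : ℕ) : ℝ) / b / 2 ^ 40 = a / 2 ^ 40 / (b / 2 ^ 40) := by
  rw [Nat.cast_pow, Nat.cast_ofNat]
  field_simp

theorem rLo_le (hG : GGRID) (H : TH A B I θ z) {k : ℕ} (hk : k ≤ I.kz) :
    vR (N.rLo B k) ≤ rr θ (xR k) := by
  have hpos := f0_pos hG H hk
  have hz := xR_lt_z hG H hk
  -- `1 ≤ rr`
  have h1 : 1 ≤ rr θ (xR k) := by
    rcases Nat.eq_zero_or_pos k with h0 | h0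
    · subst h0
      rw [xR_zero hG]
      unfold rr
      rw [f0_zero (th_pos H) H.bf.th1, f1_zero (th_pos H) H.bf.th1]
      norm_num
    · have hx : 0 < xR k := by
        rw [← xR_zero hG]
        exact aR_strict (hG.2.2.2.1 _ _ h0 (hk.trans (kz_lt H).le))
      have hR := Pool.Agent.Helper61.PT.gRL θ z _ _ _ _ H.fa
      have e1 := hR.2.2.2.2.2.2.2.2.2.1 (xR k) hx.le hz
      have e2 := hR.2.2.2.2.2.2.2.2.2.2.1 (xR k) hx hz
      have e3 : xR k / 2 ≤ -Real.log (f0 θ (xR k)) := by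
        have := Real.log_le_log hpos e1
        rw [Real.log_exp] at this
        linarith
      have e4 : xR k * 1 ≤ xR k * rr θ (xR k) := by linarith
      exact le_of_mul_le_mul_left e4 hx
  have hr : N.rLo B k = max (2 ^ 40)
      (N.pp (N.fld (N.tSL B) k) * 2 ^ 40 / N.pp (N.fld (N.tPU B) k)) := by
    unfold N.rLo
    rw [mx_eq, shl_eq]
    rfl
  rw [hr]
  have hP : N.pp (N.fld (N.tPU B) k) = N.fld (N.tPU B) k - 2 ^ 40 := by rw [pp_eq]; norm_num
  have hPg := PU_ge H hk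
  have hq : f0 θ (xR k) ≤ vR (N.pp (N.fld (N.tPU B) k)) := by
    rw [vR_pp (by omega)]
    exact H.tb.pu k (hk.trans (kz_lt H).le)
  have hqpos : 0 < vR (N.pp (N.fld (N.tPU B) k)) := lt_of_lt_of_le hpos hq
  rcases le_total (N.pp (N.fld (N.tSL B) k) * 2 ^ 40 / N.pp (N.fld (N.tPU B) k)) (2 ^ 40) with h | h
  · rw [max_eq_left h]
    refine le_trans (le_of_eq ?_) h1
    unfold vR
    norm_num
  · rw [max_eq_right h]
    by_cases hS : 2 ^ 40 ≤ N.fld (N.tSL B) k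
    · have hp : vR (N.pp (N.fld (N.tSL B) k)) ≤ f1 θ (xR k) := by
        rw [vR_pp hS]
        exact H.tb.sl k (hk.trans (kz_lt H).le)
      have hdiv : vR (N.pp (N.fld (N.tSL B) k) * 2 ^ 40 / N.pp (N.fld (N.tPU B) k)) ≤
          vR (N.pp (N.fld (N.tSL B) k)) / vR (N.pp (N.fld (N.tPU B) k)) := by
        unfold vR at hqpos ⊢
        have hq' : (0 : ℝ) < (N.pp (N.fld (N.tPU B) k) : ℝ) := by
          have := mul_pos hqpos (show (0 : ℝ) < 2 ^ 40 by positivity)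
          rwa [div_mul_cancel₀ _ (by positivity)] at this
        have h2 := Nat.cast_div_le (α := ℝ) (m := N.pp (N.fld (N.tSL B) k) * 2 ^ 40)
          (n := N.pp (N.fld (N.tPU B) k))
        calc ((N.pp (N.fld (N.tSL B) k) * 2 ^ 40 / N.pp (N.fld (N.tPU B) k) : ℕ) : ℝ) / 2 ^ 40
            ≤ ((N.pp (N.fld (N.tSL B) k) * 2 ^ 40 : ℕ) : ℝ) / (N.pp (N.fld (N.tPU B) k) : ℝ) / 2 ^ 40 := by
              gcongr
          _ = _ := by
              rw [Nat.cast_mul]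
              exact div_aux _ _ hq'.ne'
      refine hdiv.trans ?_
      unfold rr
      exact div_le_div₀ ((vR_nonneg _).trans hp) hp hpos hq
    · have h0 : N.pp (N.fld (N.tSL B) k) = 0 := by
        rw [pp_eq]
        norm_num at hS
        omega
      rw [h0, zero_mul, Nat.zero_div]
      refine le_trans ?_ (zero_le_one.trans h1)
      unfold vR
      norm_num

theorem ellPart (hL : GLN) (hF : GFLD) (hG : GGRID) (H : TH A B I θ z) (y : ℕ) :
    ∃ α β : ℝ, 0 ≤ β ∧ (∀ w, 0 ≤ w → w < z → f0 θ w ≤ Real.exp (-(α * w) - β * w ^ 2)) ∧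
      vR (N.ell (N.mkTab B I) y) ≤ α + β * aR y := by
  obtain ⟨k0, hk0⟩ : ∃ k0, k0 = min (N.idx y) I.kE := ⟨_, rfl⟩
  have hkE : I.kE < I.kz := H.ix.kE
  have hk0E : k0 ≤ I.kE := by rw [hk0]; exact min_le_right _ _
  have hk0z : k0 < I.kz := lt_of_le_of_lt hk0E hkE
  have hkz := kz_lt H
  have hxy : N.xgN k0 ≤ y := by
    have h1 : N.xgN (N.idx y) ≤ y := hG.2.2.2.2.2.2.1 y
    have h2 : k0 ≤ N.idx y := by rw [hk0]; exact min_le_left _ _
    have h3 : N.idx y ≤ 1152 := by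
      by_cases hy : 2 ^ 32 ≤ y
      · rw [hG.2.2.2.2.2.1 y hy]
      · obtain ⟨k, d, hk, -, -, hidx, -⟩ := hG.2.2.2.2.1 y (by omega)
        omega
    exact (xg_mono hG h2 h3).trans h1
  have hsn : 0 ≤ sR I k0 := by unfold sR; positivity
  have hell : N.ell (N.mkTab B I) y = N.fld (N.tF I) k0 + N.slp I k0 * (y - N.xgN k0) / 2 ^ 16 := by
    unfold N.ell
    rw [hF.2.2.2.2.2.2, mn_eq, shr_eq]
    show N.fld (N.tF I) (min (N.idx y) I.kE) + N.slp I (min (N.idx y) I.kE) *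
      (y - N.xgN (min (N.idx y) I.kE)) / 2 ^ 16 = _
    rw [← hk0]
  refine ⟨vR (N.fld (N.tF I) k0) - sR I k0 * xR k0, sR I k0, hsn, ?_, ?_⟩
  · have hline : ∀ j ≤ I.kz, vR (N.fld (N.tF I) k0) - sR I k0 * xR k0 + sR I k0 * xR j ≤
        vR (N.fld (N.tF I) j) := by
      intro j hj
      have := line_le hG H hk0z hj
      linarith
    have hx1 : ∀ k < I.kz, xR (k + 1) * vR (N.fld (N.tF I) (k + 1)) =
        ((N.xgN (k + 1) * N.fld (N.tF I) (k + 1) : ℕ) : ℝ) / 2 ^ 66 := by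
      intro k hk
      unfold xR aR vR
      push_cast
      ring
    refine Pool.Agent.Helper90.PT.gLINE Pool.Agent.Helper61.PT.gRL θ z _ _ _ _ H.fa I.kz xR
      (fun _ => 0) (fun k => vR (N.fld (N.tLL B I.kz) k)) (fun k => vR (N.rLo B k)) _ _
      (xR_zero hG) (fun k hk => xR_step hG H hk) (xR_lt_z hG H le_rfl)
      (fun k hk => ⟨LL_le hL hF hG H hk, rLo_le hG H hk⟩) hsn ?_ ?_ ?_
    · intro k hk
      have h1 := mul_le_mul_of_nonneg_left (hline k hk) (aR_nonneg (N.xgN k) : (0 : ℝ) ≤ xR k)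
      refine h1.trans ?_
      cases k with
      | zero =>
        show xR 0 * _ ≤ _
        rw [xR_zero hG, zero_mul]
        exact vR_nonneg _
      | succ k =>
        show xR (k + 1) * _ ≤ _
        rw [hx1 k hk]
        have h2 : ((N.xgN (k + 1) * N.fld (N.tF I) (k + 1) : ℕ) : ℝ) ≤
            ((N.fld (N.tLL B I.kz) (k + 1) * 2 ^ 26 : ℕ) : ℝ) := Nat.cast_le.2 (H.ix.L1 k hk)
        unfold vR
        rw [div_le_div_iff₀ (by positivity) (by positivity)]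
        push_cast at h2 ⊢
        nlinarith
    · intro k hk
      have h1 := mul_le_mul_of_nonneg_left (hline (k + 1) hk) (aR_nonneg (N.xgN (k + 1)) : (0 : ℝ) ≤ xR (k + 1))
      refine h1.trans ?_
      show xR (k + 1) * _ ≤ _
      rw [hx1 k hk]
      have h2 : ((N.xgN (k + 1) * N.fld (N.tF I) (k + 1) : ℕ) : ℝ) ≤
          (((N.fld (N.tLL B I.kz) k + N.rLo B k / 2 ^ (27 - N.shf k)) * 2 ^ 26 : ℕ) : ℝ) :=
        Nat.cast_le.2 (H.ix.L2 k hk)
      obtain ⟨hst, hs1, hs2⟩ := hG.2.2.1 k (by omega)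
      have hstep : xR (k + 1) - xR k = 2 ^ N.shf k / 2 ^ 26 := by
        unfold xR aR
        rw [hst]
        push_cast
        ring
      show _ ≤ vR (N.fld (N.tLL B I.kz) k) + vR (N.rLo B k) / 2 * (xR (k + 1) - xR k)
      rw [hstep]
      have h3 : ((N.rLo B k / 2 ^ (27 - N.shf k) : ℕ) : ℝ) ≤ (N.rLo B k : ℝ) * 2 ^ N.shf k / 2 ^ 27 := by
        have := Nat.cast_div_le (α := ℝ) (m := N.rLo B k) (n := 2 ^ (27 - N.shf k))
        refine this.trans (le_of_eq ?_)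
        push_cast
        have h4 : (2 : ℝ) ^ 27 = 2 ^ (27 - N.shf k) * 2 ^ N.shf k := by
          rw [← pow_add]
          congr 1
          omega
        rw [h4]
        field_simp
      have h5 : ((N.xgN (k + 1) * N.fld (N.tF I) (k + 1) : ℕ) : ℝ) / 2 ^ 66 ≤
          (((N.fld (N.tLL B I.kz) k + N.rLo B k / 2 ^ (27 - N.shf k)) * 2 ^ 26 : ℕ) : ℝ) / 2 ^ 66 := by
        gcongr
      refine h5.trans ?_
      rw [Nat.cast_mul, Nat.cast_add, Nat.cast_pow, Nat.cast_ofNat]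
      unfold vR
      calc ((N.fld (N.tLL B I.kz) k : ℝ) + ((N.rLo B k / 2 ^ (27 - N.shf k) : ℕ) : ℝ)) * 2 ^ 26 / 2 ^ 66
          ≤ ((N.fld (N.tLL B I.kz) k : ℝ) + (N.rLo B k : ℝ) * 2 ^ N.shf k / 2 ^ 27) * 2 ^ 26 / 2 ^ 66 := by
            gcongr
        _ = _ := by ring
    · -- beyond the last point
      show vR (N.fld (N.tF I) k0) - sR I k0 * xR k0 + 2 * sR I k0 * z ≤ vR (N.rLo B I.kz) / 2
      have hz0 : 0 < z := H.fa.z0
      have hzE : xR I.kE < z := xR_lt_z hG H hkE.le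
      have hE := hline I.kE hkE.le
      have hsl : sR I k0 ≤ sR I I.kE := sR_mono H hk0E hkE
      have h1 : sR I k0 * (2 * z - xR I.kE) ≤ sR I I.kE * (2 * z - xR I.kE) :=
        mul_le_mul_of_nonneg_right hsl (by linarith)
      have hzR : z < xR I.kR := H.zr
      have hsE : 0 ≤ sR I I.kE := by unfold sR; positivity
      have h2 : sR I I.kE * (2 * z - xR I.kE) ≤ sR I I.kE * (2 * xR I.kR - xR I.kE) :=
        mul_le_mul_of_nonneg_left (by linarith) hsE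
      have h3 : vR (N.fld (N.tF I) I.kE) + sR I I.kE * (2 * xR I.kR - xR I.kE) ≤
          vR (N.rLo B I.kz) / 2 := by
        have hle : N.xgN I.kE ≤ 2 * N.xgN I.kR := by
          have hR1 : I.kR ≤ 1152 := H.ix.RM.trans (H.ix.MN.le.trans H.ix.N1)
          have : N.xgN I.kE ≤ N.xgN I.kR := xg_mono hG (hkE.le.trans H.ix.kzR.le) hR1
          omega
        have h4 : ((N.fld (N.tF I) I.kE * 2 ^ 16 + N.slp I I.kE * (2 * N.xgN I.kR - N.xgN I.kE) : ℕ) : ℝ) ≤
            ((N.rLo B I.kz * 2 ^ 15 : ℕ) : ℝ) := Nat.cast_le.2 H.ix.L3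
        rw [Nat.cast_add, Nat.cast_mul, Nat.cast_mul, Nat.cast_sub hle, Nat.cast_mul, Nat.cast_mul,
          Nat.cast_pow, Nat.cast_pow, Nat.cast_ofNat] at h4
        unfold vR sR xR aR
        have e : (N.fld (N.tF I) I.kE : ℝ) / 2 ^ 40 + (N.slp I I.kE : ℝ) / 2 ^ 30 *
            (2 * ((N.xgN I.kR : ℝ) / 2 ^ 26) - (N.xgN I.kE : ℝ) / 2 ^ 26) =
            ((N.fld (N.tF I) I.kE : ℝ) * 2 ^ 16 + (N.slp I I.kE : ℝ) *
              (2 * (N.xgN I.kR : ℝ) - (N.xgN I.kE : ℝ))) / 2 ^ 56 := by ring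
        rw [e]
        refine (div_le_div_of_nonneg_right h4 (show (0 : ℝ) ≤ 2 ^ 56 by positivity)).trans (le_of_eq ?_)
        ring
      linarith
  · rw [hell]
    have hy : aR y - xR k0 = ((y - N.xgN k0 : ℕ) : ℝ) / 2 ^ 26 := by
      unfold xR aR
      rw [Nat.cast_sub hxy]
      ring
    have h1 : ((N.slp I k0 * (y - N.xgN k0) / 2 ^ 16 : ℕ) : ℝ) ≤
        (N.slp I k0 : ℝ) * ((y - N.xgN k0 : ℕ) : ℝ) / 2 ^ 16 := by
      have := Nat.cast_div_le (α := ℝ) (m := N.slp I k0 * (y - N.xgN k0)) (n := 2 ^ 16)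
      refine this.trans (le_of_eq ?_)
      push_cast
      ring
    have h2 : vR (N.fld (N.tF I) k0) - sR I k0 * xR k0 + sR I k0 * aR y =
        vR (N.fld (N.tF I) k0) + sR I k0 * (aR y - xR k0) := by ring
    rw [h2, hy]
    unfold vR sR
    rw [Nat.cast_add, add_div]
    have h3 : (N.slp I k0 : ℝ) / 2 ^ 30 * (((y - N.xgN k0 : ℕ) : ℝ) / 2 ^ 26) =
        (N.slp I k0 : ℝ) * ((y - N.xgN k0 : ℕ) : ℝ) / 2 ^ 16 / 2 ^ 40 := by ring
    rw [h3]
    gcongr

end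

/-- **Packet PT-LAM.** -/
theorem gLAM : GLAM := fun hL hF hG _ _ _ _ _ H =>
  ⟨fun x hx => lamPart hL hF hG H x hx, fun y => ellPart hL hF hG H y⟩

end Pool.Agent.Helper81.PT
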